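import Mathlib

/-!
# MP_49bd53_lc : definitions

Scheduling with precedence constraints, its vertex cover formulation, the LP lower bound, blow-ups
of graphs and interval completion.
-/

open scoped Classical

namespace Pool.Agent.MP_49bd53_lc

noncomputable section

/-! ### Weighted vertex cover and its linear programme -/

/-- `C` is a vertex cover of `G`. -/
def IsCover {V : Type} (G : SimpleGraph V) (C : Finset V) : Prop :=
  ∀ u v, G.Adj u v → u ∈ C ∨ v ∈ C

/-- The minimum weight of a vertex cover of `G`. -/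
def vc {V : Type} [Fintype V] (G : SimpleGraph V) (wt : V → ℕ) : ℕ :=
  sInf {c | ∃ C : Finset V, IsCover G C ∧ c = ∑ v ∈ C, wt v}

/-- `x` is a feasible solution of the linear programme of vertex cover. -/
def IsFrac {V : Type} (G : SimpleGraph V) (x : V → ℝ) : Prop :=
  (∀ v, 0 ≤ x v ∧ x v ≤ 1) ∧ ∀ u v, G.Adj u v → 1 ≤ x u + x v

/-- The value of the linear programme of weighted vertex cover. -/
def lp {V : Type} [Fintype V] (G : SimpleGraph V) (wt : V → ℕ) : ℝ :=
  sInf {r | ∃ x : V → ℝ, IsFrac G x ∧ r = ∑ v, (wt v : ℝ) * x v}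

/-- `y` is (twice) an optimal half-integral solution of the dual linear programme: `y` is a
symmetric function supported on the edges of `G`, with load at most `2 * wt v` at each vertex `v`,
and total value `∑_{uv ∈ E} y u v = 2 * lp`. -/
structure OptDual {V : Type} [Fintype V] (G : SimpleGraph V) (wt : V → ℕ) (y : V → V → ℕ) :
    Prop where
  symm : ∀ u v, y u v = y v u
  supp : ∀ u v, y u v ≠ 0 → G.Adj u v
  load : ∀ v, ∑ u, y v u ≤ 2 * wt v
  opt : ((∑ u, ∑ v, y u v : ℕ) : ℝ) = 4 * lp G wt

/-- The truncated weights: the doubled weight `2 * wt u` is the sum of the numbers `y u v` and of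
the slack `2 * wt u - ∑ v, y u v`; each of these summands is replaced by its minimum
with `K + 1`. -/
def trunc {V : Type} [Fintype V] (wt : V → ℕ) (y : V → V → ℕ) (K : ℕ) (u : V) : ℕ :=
  ∑ v, min (y u v) (K + 1) + min (2 * wt u - ∑ v, y u v) (K + 1)

/-- The vertices of the blow-up: `c v` copies of each vertex `v`. -/
abbrev Copies {V : Type} (c : V → ℕ) : Type := (v : V) × Fin (c v)

/-- The blow-up of the graph `G`: each vertex `v` is replaced by `c v` pairwise non-adjacent copies
of it, and two copies are adjacent when their originals are. -/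
def blowup {V : Type} (G : SimpleGraph V) (c : V → ℕ) : SimpleGraph (Copies c) :=
  G.comap (fun a => a.1)

/-! ### Scheduling -/

/-- An instance of `1|prec|∑ w_j C_j` with set of jobs `N`. -/
structure Inst (N : Type) where
  /-- processing times -/
  p : N → ℕ
  /-- weights -/
  w : N → ℕ
  /-- the precedence constraints, a strict partial order -/
  prec : N → N → Prop
  p_pos : ∀ i, 0 < p i
  irrefl : ∀ i, ¬ prec i i
  trans : ∀ i j k, prec i j → prec j k → prec i k

variable {N : Type}

/-- A schedule: the jobs are processed in the order of increasing `s`. -/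
def Inst.IsSchedule (I : Inst N) (s : N → ℕ) : Prop :=
  Function.Injective s ∧ ∀ i j, I.prec i j → s i < s j

/-- The completion time of the job `j`. -/
def Inst.completion [Fintype N] (I : Inst N) (s : N → ℕ) (j : N) : ℕ :=
  ∑ i ∈ Finset.univ.filter (fun i => s i ≤ s j), I.p i

/-- The cost of a schedule, the weighted sum of the completion times. -/
def Inst.cost [Fintype N] (I : Inst N) (s : N → ℕ) : ℕ :=
  ∑ j, I.w j * I.completion s j

/-- The minimum cost of a schedule. -/
def Inst.opt [Fintype N] (I : Inst N) : ℕ :=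
  sInf {c | ∃ s, I.IsSchedule s ∧ c = I.cost s}

/-- The reflexive closure of the precedence relation. -/
def Inst.le (I : Inst N) (i l : N) : Prop := I.prec i l ∨ i = l

/-- The ordered pairs of distinct incomparable jobs, the vertices of the conflict graph. -/
abbrev Inst.Pair (I : Inst N) : Type :=
  {q : N × N // q.1 ≠ q.2 ∧ ¬ I.prec q.1 q.2 ∧ ¬ I.prec q.2 q.1}

/-- The conflict graph `G_P`. -/
def Inst.conflict (I : Inst N) : SimpleGraph I.Pair where
  Adj u v := u ≠ v ∧ I.le u.1.1 v.1.2 ∧ I.le v.1.1 u.1.2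
  symm := ⟨fun _ _ h => ⟨h.1.symm, h.2.2, h.2.1⟩⟩
  loopless := ⟨fun _ h => h.1 rfl⟩

/-- The weight `p_i w_j` of the vertex `(i, j)` of the conflict graph. -/
def Inst.wt (I : Inst N) (q : I.Pair) : ℕ := I.p q.1.1 * I.w q.1.2

/-- The constant `c_0 = ∑_j p_j w_j + ∑_{i ≺ j} p_i w_j`. -/
def Inst.base [Fintype N] (I : Inst N) : ℕ :=
  ∑ j, I.p j * I.w j +
    ∑ q ∈ Finset.univ.filter (fun q : N × N => I.prec q.1 q.2), I.p q.1 * I.w q.2

/-- The LP lower bound `LB`. -/
def Inst.lb [Fintype N] (I : Inst N) : ℝ := I.base + lp I.conflict I.wt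

/-! ### Interval completion -/

/-- Interval graphs. -/
def IsIntervalGraph {V : Type} (F : SimpleGraph V) : Prop :=
  ∃ l r : V → ℝ, (∀ v, l v ≤ r v) ∧ ∀ u v, u ≠ v → (F.Adj u v ↔ l u ≤ r v ∧ l v ≤ r u)

/-- The minimum number of edges whose addition to `L` makes it an interval graph. -/
def fillNum {V : Type} (L : SimpleGraph V) : ℕ :=
  sInf {m | ∃ F : SimpleGraph V, L ≤ F ∧ IsIntervalGraph F ∧ m = (F.edgeSet \ L.edgeSet).ncard}

/-- The scheduling instance of a graph `L`: for each vertex `u` a job `a_u = inl u` of weight `0`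
and a job `b_u = inr u` of weight `1`, all processing times `1`, and `a_u` precedes `b_v` when
`u = v` or `u` is adjacent to `v`. -/
def intervalInst {V : Type} (L : SimpleGraph V) : Inst (V ⊕ V) where
  p := fun _ => 1
  w := Sum.elim (fun _ => 0) (fun _ => 1)
  prec := fun i j => ∃ u v, i = Sum.inl u ∧ j = Sum.inr v ∧ (u = v ∨ L.Adj u v)
  p_pos := fun _ => Nat.one_pos
  irrefl := by
    rintro i ⟨u, v, h1, h2, -⟩
    rw [h1] at h2
    exact absurd h2 (by simp)
  trans := by
    rintro i j k ⟨u, v, -, h2, -⟩ ⟨u', v', h3, -, -⟩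
    rw [h3] at h2
    exact absurd h2 (by simp)

end

end Pool.Agent.MP_49bd53_lc
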