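import Pool.Agent.Lib.MP_49bd53_lc.SP.Stm

/-!
# MP_49bd53_lc : assembly
-/

open scoped Classical

namespace Pool.Agent.MP_49bd53_lc

noncomputable section

open Finset

theorem lb_eq {N : Type} [Fintype N] (I : Inst N) : I.lb = I.base + lp I.conflict I.wt := rfl

theorem lp_inst {V : Type} (i₁ i₂ : Fintype V) (G : SimpleGraph V) (wt : V → ℕ) :
    @lp V i₁ G wt = @lp V i₂ G wt := by
  obtain rfl : i₁ = i₂ := Subsingleton.elim _ _
  rfl

/-- `OPT = c_0 + τ`. -/
theorem opt_eq (h_am : S_am) (h_sc : S_sc) {N : Type} [Fintype N] (I : Inst N) :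
    I.opt = I.base + vc I.conflict I.wt := by
  have hX : ∃ X : Finset I.Pair, IsCover I.conflict X ∧
      vc I.conflict I.wt = ∑ v ∈ X, I.wt v := by
    have := Nat.sInf_mem (s := {c | ∃ C : Finset I.Pair, IsCover I.conflict C ∧
      c = ∑ v ∈ C, I.wt v}) ⟨_, univ, fun u v _ => Or.inl (mem_univ _), rfl⟩
    exact this
  obtain ⟨X, hX, hXv⟩ := hX
  apply le_antisymm
  · obtain ⟨s, hs, hle⟩ := h_am N I X hX
    rw [hXv]
    exact le_trans (Nat.sInf_le ⟨s, hs, rfl⟩) hle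
  · have hne : {c | ∃ s, I.IsSchedule s ∧ c = I.cost s}.Nonempty := by
      obtain ⟨s, hs, -⟩ := h_am N I X hX
      exact ⟨_, s, hs, rfl⟩
    obtain ⟨s, hs, hc⟩ := Nat.sInf_mem hne
    obtain ⟨Y, hY, hYc⟩ := h_sc N I s hs
    have h1 : I.opt = I.base + ∑ q ∈ Y, I.wt q := by
      rw [← hYc]; exact hc
    have h2 : vc I.conflict I.wt ≤ ∑ q ∈ Y, I.wt q := Nat.sInf_le ⟨Y, hY, rfl⟩
    rw [h1]
    exact Nat.add_le_add_left h2 _

/-- A schedule of minimum cost. -/
theorem exists_opt (h_am : S_am) {N : Type} [Fintype N] (I : Inst N) :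
    ∃ s, I.IsSchedule s ∧ I.opt = I.cost s := by
  have hne : {c | ∃ s, I.IsSchedule s ∧ c = I.cost s}.Nonempty := by
    obtain ⟨s, hs, -⟩ := h_am N I univ (fun u v _ => Or.inl (mem_univ _))
    exact ⟨_, s, hs, rfl⟩
  exact Nat.sInf_mem hne

theorem opt_interval (h_am : S_am) (h_il : S_il) (h_ic : S_ic) (h_is : S_is)
    (V : Type) [Fintype V] (L : SimpleGraph V) :
    ((intervalInst L).opt : ℝ) = (intervalInst L).lb + fillNum L := by
  set d := (univ.filter (fun q : V × V => q.1 ≠ q.2 ∧ ¬ L.Adj q.1 q.2)).card with hd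
  have hl := h_il V L
  obtain ⟨s, hs, hopt⟩ := exists_opt h_am (intervalInst L)
  have hc := h_ic V L s hs
  have hint := (h_is V L).1 s hs
  have hle : fillNum L ≤ ((schedGraph s).edgeSet \ L.edgeSet).ncard :=
    Nat.sInf_le ⟨_, hint.1, hint.2, rfl⟩
  have hne : {m | ∃ F : SimpleGraph V, L ≤ F ∧ IsIntervalGraph F ∧
      m = (F.edgeSet \ L.edgeSet).ncard}.Nonempty := ⟨_, _, hint.1, hint.2, rfl⟩
  obtain ⟨F, hF1, hF2, hF3⟩ := Nat.sInf_mem hne
  obtain ⟨s', hs', hsF⟩ := (h_is V L).2 F hF1 hF2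
  have hc' := h_ic V L s' hs'
  have hle' : (intervalInst L).opt ≤ (intervalInst L).cost s' := Nat.sInf_le ⟨s', hs', rfl⟩
  rw [hsF] at hc'
  have hf : fillNum L = (F.edgeSet \ L.edgeSet).ncard := hF3
  rw [← hf] at hc'
  rw [← hopt] at hc
  have e : 2 * (intervalInst L).opt + Fintype.card V =
      2 * (intervalInst L).base + Fintype.card V ^ 2 + d + 2 * fillNum L := by
    apply le_antisymm
    · rw [← hc']; omega
    · rw [hc]; omega
  have e' : (2 : ℝ) * (intervalInst L).opt + Fintype.card V =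
      2 * (intervalInst L).base + (Fintype.card V : ℝ) ^ 2 + d + 2 * fillNum L := by
    exact_mod_cast e
  have hlb : (intervalInst L).lb = (intervalInst L).base +
      lp (intervalInst L).conflict (intervalInst L).wt :=
    (lb_eq (intervalInst L)).trans (by rw [lp_inst])
  rw [hlb]
  nlinarith [hl, e']

theorem reduce (h_du : S_du) (h_tr : S_tr) (h_bv : S_bv) (h_bl : S_bl) (h_cd : S_cd)
    (h_am : S_am) (h_sc : S_sc) (N : Type) [Fintype N] (I : Inst N) :
    (∃ y, OptDual I.conflict I.wt y) ∧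
    ∀ y, OptDual I.conflict I.wt y → ∀ K : ℕ,
      Fintype.card (Copies (trunc I.wt y K)) ≤ (K + 1) * Fintype.card N ^ 4 ∧
      min (2 * ((I.opt : ℝ) - I.lb)) (K + 1) =
        min ((vc (blowup I.conflict (trunc I.wt y K)) (fun _ => 1) : ℝ) -
          lp (blowup I.conflict (trunc I.wt y K)) (fun _ => 1)) (K + 1) := by
  refine ⟨(h_du _ _ _).2, fun y hy K => ⟨h_cd N I y hy K, ?_⟩⟩
  rw [h_bv, h_bl, ← h_tr _ _ _ y hy K, opt_eq h_am h_sc I]
  have hlb : I.lb = I.base + lp I.conflict I.wt := rfl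
  rw [hlb]
  congr 2
  push_cast
  ring

end

end Pool.Agent.MP_49bd53_lc
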