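import Pool.Agent.Lib.MP_49bd53_lc.SP.Defs

/-!
# MP_49bd53_lc : the pieces of the proof

Each statement `S_x` below is proved in its own file `SP/P/x.lean`; its docstring contains a
complete informal proof.
-/

open scoped Classical

namespace Pool.Agent.MP_49bd53_lc

noncomputable section

open Finset

/-! ### Linear programming part -/

/-- [hl] Hall's theorem with multiplicities.

Proof. Apply Hall's theorem (`Finset.all_card_le_biUnion_card_iff_exists_injective` in
`Mathlib/Combinatorics/Hall/Basic.lean`) to the index type `(i : A) × Fin (a i)` of copies and the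
target type `(j : B) × Fin (b j)`, with `t ⟨i, _⟩ := univ.filter (fun β => R i β.1)`.
Hall's condition: for a finite set `s` of copies put `S = s.image Sigma.fst`. Then
`#s ≤ ∑ i ∈ S, a i` (`s` is contained in the set of all copies of the members of `S`) and the union
of the `t` is the set of all copies of the `j` with `∃ i ∈ S, R i j`, of size
`∑ j ∈ {j | ∃ i ∈ S, R i j}, b j`. Let `f` be the injection, and
`m i j := #{k : Fin (a i) | (f ⟨i, k⟩).1 = j}`. Then `m i j ≠ 0 → R i j`; `∑ j, m i j = a i`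
(`Finset.card_eq_sum_card_fiberwise`); and `∑ i, m i j` is the number of copies `α` with
`(f α).1 = j`, at most `b j` by injectivity. -/
def S_hl : Prop := ∀ (A B : Type) [Fintype A] [Fintype B] (R : A → B → Prop) (a : A → ℕ)
  (b : B → ℕ), (∀ S : Finset A, ∑ i ∈ S, a i ≤ ∑ j ∈ univ.filter (fun j => ∃ i ∈ S, R i j), b j) →
  ∃ m : A → B → ℕ, (∀ i j, m i j ≠ 0 → R i j) ∧ (∀ i, ∑ j, m i j = a i) ∧
    (∀ j, ∑ i, m i j ≤ b j)

/-- [kg] Half-integral Kőnig theorem.

Proof from `S_hl`. Among the pairs `(P, Q)` of `Finset V` such that `G.Adj u v` implies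
`u ∈ P ∨ v ∈ Q` (there is one, `(univ, univ)`) take one with minimal weight
`∑ v ∈ P, wt v + ∑ v ∈ Q, wt v`.
* Apply `S_hl` with `A = B = V`, `R u v := G.Adj u v ∧ u ∈ P ∧ v ∉ Q`,
  `a u := if u ∈ P then wt u else 0`, `b := wt`. Hall's condition: let `S` be given,
  `S' = S ∩ P` and `W = {v | ∃ u ∈ S, R u v}` (which is `{v ∉ Q | ∃ u ∈ S', G.Adj u v}`).
  `(P \ S', Q ∪ W)` is again a cover (if `G.Adj u v` and `u ∈ S'` then `v ∈ Q` or `v ∈ W`), so
  by minimality `∑_{S'} wt ≤ ∑_W wt`. We get `m₁` with `m₁ u v ≠ 0 → G.Adj u v ∧ u ∈ P ∧ v ∉ Q`,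
  `∑ v, m₁ u v = wt u` for `u ∈ P`, `∑ u, m₁ u v ≤ wt v`.
* Symmetrically (`R v u := G.Adj u v ∧ v ∈ Q ∧ u ∉ P`, `a v := if v ∈ Q then wt v else 0`,
  `b := wt`): `m₂ v u ≠ 0 → G.Adj u v ∧ v ∈ Q ∧ u ∉ P`, `∑ u, m₂ v u = wt v` for `v ∈ Q`,
  `∑ v, m₂ v u ≤ wt u`.
Put `m u v := m₁ u v + m₂ v u`. Row sums: `∑ v, m u v ≤ wt u` (for `u ∈ P` the second part
vanishes; for `u ∉ P` the first part vanishes). Column sums: `∑ u, m u v ≤ wt v` (the same with
`v ∈ Q`, `v ∉ Q`). Total: `∑∑ m = ∑_{P} wt + ∑_{Q} wt`. Finally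
`x v := (if v ∈ P then 1 else 0) + (if v ∈ Q then 1 else 0)` and `y u v := m u v + m v u`.
If `G.Adj u v` then (`u ∈ P ∨ v ∈ Q`) and (`v ∈ P ∨ u ∈ Q`), so `2 ≤ x u + x v`.
`∑ u, y v u = ∑ u, m v u + ∑ u, m u v ≤ 2 wt v`; `∑∑ y = 2 ∑∑ m = 2 ∑ v, wt v * x v`. -/
def S_kg : Prop := ∀ (V : Type) [Fintype V] (G : SimpleGraph V) (wt : V → ℕ),
  ∃ (x : V → ℕ) (y : V → V → ℕ), (∀ v, x v ≤ 2) ∧ (∀ u v, G.Adj u v → 2 ≤ x u + x v) ∧
    (∀ u v, y u v = y v u) ∧ (∀ u v, y u v ≠ 0 → G.Adj u v) ∧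
    (∀ v, ∑ u, y v u ≤ 2 * wt v) ∧ 2 * ∑ v, wt v * x v = ∑ u, ∑ v, y u v

/-- [wd] Weak duality, with the exact difference.

Proof. `4 ∑ c v x v - ∑∑ z u v = 2 ∑ v, (2 c v - ∑ u, z v u) x v + 2 ∑_v ∑_u z v u x v - ∑∑ z u v`
and by symmetry `2 ∑_v ∑_u z v u x v = ∑_u ∑_v z u v (x u + x v)` (swap the summation variables
with `Finset.sum_comm` and use `z u v = z v u`). -/
def S_wd : Prop := ∀ (V : Type) [Fintype V] (c : V → ℝ) (z : V → V → ℝ) (x : V → ℝ),
  (∀ u v, z u v = z v u) →
  4 * ∑ v, c v * x v = ∑ u, ∑ v, z u v + 2 * ∑ v, (2 * c v - ∑ u, z v u) * x v +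
    ∑ u, ∑ v, z u v * (x u + x v - 1)

/-- [du] The linear programme is attained, and a dual solution in the sense of `OptDual` exists.

Proof from `S_kg` and `S_wd`. Take `x₀, y` from `S_kg` and `x v := (x₀ v : ℝ) / 2`; `IsFrac G x`.
By `S_wd` with `c := wt`, `z := y`: for every `x'` with `IsFrac G x'`,
`4 ∑ wt v x' v ≥ ∑∑ y` (both correction terms are `≥ 0`: `2 wt v ≥ ∑ u, y v u`, `x' v ≥ 0`;
`y u v = 0` or `G.Adj u v` and `x' u + x' v ≥ 1`). And `4 ∑ wt v x v = 2 ∑ wt v x₀ v = ∑∑ y`. So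
`∑ wt v x v` is the least element of the set in the definition of `lp` (`IsLeast.csInf_eq`). -/
def S_du : Prop := ∀ (V : Type) [Fintype V] (G : SimpleGraph V) (wt : V → ℕ),
  (∃ x : V → ℝ, IsFrac G x ∧ lp G wt = ∑ v, (wt v : ℝ) * x v) ∧ ∃ y, OptDual G wt y

/-- [lt] The value of the linear programme for the truncated weights.

Proof from `S_du` and `S_wd`. Take `x` attaining `lp G wt` (`S_du`). `S_wd` for
`c := wt`, `z := y`, `x` reads `4 lp = ∑∑ y + (≥ 0) + (≥ 0)`, and `∑∑ y = 4 lp`, so both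
correction terms vanish; all summands are `≥ 0`, hence for every `v`:
`(2 wt v - ∑ u, y v u) x v = 0`, and for all `u, v`: `y u v (x u + x v - 1) = 0`
(`Finset.sum_eq_zero_iff_of_nonneg`).
Let `y' u v := min (y u v) (K+1)`, `t v := min (2 wt v - ∑ u, y v u) (K+1)` (truncated subtraction
is harmless because of `load`), so `trunc wt y K v = ∑ u, y' v u + t v`. Apply `S_wd` with
`c := trunc wt y K`, `z := 2 y'`: `2 c v - ∑ u, z v u = 2 t v`, so for any `x'`
`4 ∑ c v x' v = 2 ∑∑ y' + 4 ∑ t v x' v + 2 ∑∑ y' u v (x' u + x' v - 1)`. For `IsFrac G x'` the two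
last terms are `≥ 0`; for `x' = x` they vanish, since `t v ≠ 0` implies that the slack of `v` is
`≠ 0` so that `x v = 0`, and `y' u v ≠ 0` implies `y u v ≠ 0` so that `x u + x v = 1`. So the least
value is `(∑∑ y') / 2`. -/
def S_lt : Prop := ∀ (V : Type) [Fintype V] (G : SimpleGraph V) (wt : V → ℕ) (y : V → V → ℕ),
  OptDual G wt y → ∀ K : ℕ,
    lp G (trunc wt y K) = ((∑ u, ∑ v, min (y u v) (K + 1) : ℕ) : ℝ) / 2

/-- [ex] The weight of a vertex cover above the linear programme.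

Proof. `∑ u ∈ C, (∑ v, z u v + t u) = ∑_{u ∈ C} ∑_{v ∈ C} z u v + ∑_{u ∈ C} ∑_{v ∉ C} z u v
+ ∑_{u ∈ C} t u`. As `C` is a cover, `z u v = 0` for `u, v ∉ C`; so by symmetry
`∑_u ∑_v z u v = ∑_{C × C} z + 2 ∑_{C × Cᶜ} z`. Combine. -/
def S_ex : Prop := ∀ (V : Type) [Fintype V] (G : SimpleGraph V) (z : V → V → ℕ) (t : V → ℕ)
  (C : Finset V), (∀ u v, z u v = z v u) → (∀ u v, z u v ≠ 0 → G.Adj u v) → IsCover G C →
  2 * ∑ u ∈ C, (∑ v, z u v + t u) =
    ∑ u, ∑ v, z u v + ∑ u ∈ C, ∑ v ∈ C, z u v + 2 * ∑ u ∈ C, t u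

/-- [mn] Truncation does not change the excess below `K + 1`.

Proof. Write `L = K + 1`, `E = ∑_{C × C} z + 2 ∑_C t`, `E'` the same with the truncated summands;
`E' ≤ E`. If all `z u v ≤ L` (`u, v ∈ C`) and all `t u ≤ L` (`u ∈ C`) then `E = E'`.
If `t u > L` for some `u ∈ C` then `E' ≥ 2 min (t u) L = 2 L` and both minima are `2 L`.
If `z u v > L` for some `u, v ∈ C` then `u ≠ v`, and the terms `(u, v)` and `(v, u)` of
`∑_{C × C}` are different, so `E' ≥ min (z u v) L + min (z v u) L = 2 L`, and both minima are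
`2 L`. -/
def S_mn : Prop := ∀ (V : Type) [Fintype V] (z : V → V → ℕ) (t : V → ℕ)
  (C : Finset V) (K : ℕ), (∀ u v, z u v = z v u) → (∀ u, z u u = 0) →
  min (∑ u ∈ C, ∑ v ∈ C, z u v + 2 * ∑ u ∈ C, t u) (2 * (K + 1)) =
    min (∑ u ∈ C, ∑ v ∈ C, min (z u v) (K + 1) + 2 * ∑ u ∈ C, min (t u) (K + 1)) (2 * (K + 1))

/-- [tr] Truncation of the weights does not change the value of the minimum vertex cover above the
linear programme, below `K + 1`.

Proof from `S_lt`, `S_ex`, `S_mn`. For a cover `C` put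
`e C := 2 (2 ∑_C wt - 2 lp G wt)` and `e' C := 2 (∑_C trunc - lp G trunc)`. With
`t u := 2 wt u - ∑ v, y u v` one has `2 wt u = ∑ v, y u v + t u` (`load`; truncated subtraction),
so by `S_ex` `e C = ∑_{C × C} y + 2 ∑_C t` (as `4 lp G wt = ∑∑ y`) and
`e' C = ∑_{C × C} y' + 2 ∑_C t'` (`y' = min y (K+1)`, `t' = min t (K+1)`,
`2 lp G trunc = ∑∑ y'` by `S_lt`). By `S_mn`
`min (e C) (2 (K+1)) = min (e' C) (2 (K+1))` for every cover `C`. Both minimum vertex covers are
attained (`Nat.sInf_mem`). If `C` is a minimum cover for `wt` then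
`4 (vc - lp) = e C`, `2 (vc' - lp') ≤ e' C`, so `min (2 (vc' - lp')) (2 (K+1)) ≤
min (e C) (2 (K+1))`, and symmetrically with a minimum cover `C'` for `trunc`. Divide by 2. -/
def S_tr : Prop := ∀ (V : Type) [Fintype V] (G : SimpleGraph V) (wt : V → ℕ) (y : V → V → ℕ),
  OptDual G wt y → ∀ K : ℕ,
    min (2 * ((vc G wt : ℝ) - lp G wt)) (K + 1) =
      min ((vc G (trunc wt y K) : ℝ) - lp G (trunc wt y K)) (K + 1)

/-! ### Blow-ups -/

/-- [bv] Minimum vertex covers of a blow-up.

Proof. (≤) If `C` is a cover of `G` then `{a | a.1 ∈ C}` is a cover of the blow-up with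
`∑ v ∈ C, c v` elements. (≥) If `D` is a cover of the blow-up put
`C := {v | ∀ i : Fin (c v), ⟨v, i⟩ ∈ D}`. It is a cover of `G`: if `G.Adj u v` and
`⟨u, i⟩ ∉ D`, `⟨v, j⟩ ∉ D`, these two adjacent vertices are not in `D`. And `∑ v ∈ C, c v`
is the number of `a` with `a.1 ∈ C`, all of which lie in `D`. Both minima are attained
(`Nat.sInf_mem`, the set `univ` is a cover); use `Nat.sInf_le` for the other direction. -/
def S_bv : Prop := ∀ (V : Type) [Fintype V] (G : SimpleGraph V) (c : V → ℕ),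
  vc (blowup G c) (fun _ => 1) = vc G c

/-- [bl] The linear programme of a blow-up.

Proof. (≤) A feasible `x` of `G` gives the feasible `fun a => x a.1` of the blow-up with the same
value (`Fintype.sum_sigma`). (≥) A feasible `z` of the blow-up gives
`x v := if h : 0 < c v then ⨅ i : Fin (c v), z ⟨v, i⟩ else 1` (the infimum is attained, `Fin (c v)`
is finite and nonempty: `exists_eq_ciInf_of_finite`). It is feasible and
`c v * x v ≤ ∑ i : Fin (c v), z ⟨v, i⟩`. Conclude with `le_csInf` and `csInf_le` (the sets are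
nonempty, take `x = 1`, and bounded below by `0`). -/
def S_bl : Prop := ∀ (V : Type) [Fintype V] (G : SimpleGraph V) (c : V → ℕ),
  lp (blowup G c) (fun _ => 1) = lp G c

/-- [cd] The number of vertices of the blow-up.

Proof. `#(Copies c) = ∑ v, c v` (`Fintype.card_sigma`, `Fintype.card_fin`). Since `y v v = 0`
(`supp` and irreflexivity), `trunc wt y K v ≤ (#V - 1) (K+1) + (K+1) = #V (K+1)` (when
`V` is empty there is nothing to prove). So `#(Copies _) ≤ (#V)^2 (K+1)`; and `V = I.Pair`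
is a subtype of `N × N`, so `#V ≤ (#N)^2`. -/
def S_cd : Prop := ∀ (N : Type) [Fintype N] (I : Inst N) (y : I.Pair → I.Pair → ℕ),
  OptDual I.conflict I.wt y → ∀ K : ℕ,
    Fintype.card (Copies (trunc I.wt y K)) ≤ (K + 1) * Fintype.card N ^ 4

/-! ### Ambühl-Mastrolilli: the optimum is the minimum weight of a vertex cover -/

/-- A tournament. -/
def IsTour {N : Type} (T : N → N → Prop) : Prop :=
  (∀ i, ¬ T i i) ∧ ∀ i j, i ≠ j → (T i j ↔ ¬ T j i)

/-- The total `p`-weight of the elements of `Y` that come after all elements of `S` in the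
relation `R`. -/
def after {N : Type} (R : N → N → Prop) (p : N → ℕ) (Y S : Finset N) : ℕ :=
  ∑ c ∈ Y.filter (fun c => ∀ a ∈ S, R a c), p c

/-- The total `p`-weight of the elements of `Y` that are known to come after all elements of `S`
in the order where the elements of `Y` before `d` in `T` are put before `d`, those after `d` are
put after `d`, and `T` is used inside these two parts. -/
def pivot {N : Type} (T : N → N → Prop) (p : N → ℕ) (Y S : Finset N) (d : N) : ℕ :=
  after T p (Y.filter (fun c => T d c)) (S.filter (fun a => T d a)) +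
    if (∀ a ∈ S, T a d) then p d + after T p (Y.filter (fun c => T c d)) S else 0

/-- [qa] The averaging step of QuickSort on a tournament.

Proof. Let `C = {c ∈ Y | ∀ a ∈ S, T a c}`, so `after T p Y S = ∑_{c ∈ C} p c`. Write both sides as
sums over pairs `(d, c) ∈ Y × Y` of `p d * p c` times an indicator. On the left: `c ∈ C`. On the
right the indicator of `(d, c)` is (for given `d`, at most one of the three cases occurs)
* if `T d c`: `1` iff `∀ a ∈ S, T d a → T a c`;
* if `c = d`: `1` iff `d ∈ C`;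
* if `T c d`: `1` iff `d ∈ C` and `c ∈ C`.
If `c ∈ C`, the right indicator is `1` unless `d ∉ C` and `T c d`: the deficient pairs. If `(d, c)` is
deficient (`c ∈ C`, `d ∉ C`, `T c d`) then for the swapped pair `(d', c') = (c, d)` the left
indicator is `0` (as `c' = d ∉ C`), and the right indicator is `1`: `T d' c'` holds and for
`a ∈ S` we have `T a c = T a d'`, hence not `T d' a`, so the implication is vacuous. So for all
`(d, c)`: `[left(d,c)] + [left(c,d)] ≤ [right(d,c)] + [right(c,d)]`: a case check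
(both in `C`: right are both `1`. `c ∈ C`, `d ∉ C`: left sum is `1`; if `T d c` then
`right(d,c) = 1`, if `T c d` then `right(c,d) = 1`; `c ≠ d` here.) Sum over
all pairs, multiply by `p d * p c`, and divide by 2. -/
def S_qa : Prop := ∀ (N : Type) (T : N → N → Prop), IsTour T → ∀ (p : N → ℕ)
  (Y S : Finset N), (∑ d ∈ Y, p d) * after T p Y S ≤ ∑ d ∈ Y, p d * pivot T p Y S d

/-- [qs] QuickSort: a tournament can be replaced by a linear order.

Proof from `S_qa`. Prove by strong induction on `n`: for every `Y : Finset N` with `#Y = n`, all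
`w : B → ℕ` and `S : B → Finset N` with `S b ⊆ Y` there is `s : N → ℕ`, injective on `Y`, with
`∑ b, w b * after T p Y (S b) ≤ ∑ b, w b * after (fun a c => s a < s c) p Y (S b)`.
`Y` empty: trivial. Otherwise `0 < ∑ d ∈ Y, p d`, and from `S_qa`, summed over `b` with the factors
`w b`, `(∑_{d ∈ Y} p d) * ∑ b, w b * after T p Y (S b) ≤
∑ d ∈ Y, p d * ∑ b, w b * pivot T p Y (S b) d`, so there is `d ∈ Y` with
`∑ b, w b * after T p Y (S b) ≤ ∑ b, w b * pivot T p Y (S b) d`
(else the strict reverse inequality for all `d` contradicts, `p d > 0`). Let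
`Y₁ = Y.filter (T · d)`, `Y₂ = Y.filter (T d ·)` (both smaller, `d` is in neither;
`Y = Y₁ ∪ {d} ∪ Y₂`). By induction there are `s₂` for `Y₂`, the sets `(S b).filter (T d ·)` and
`w`, and `s₁` for `Y₁`, the sets `(S b).filter (T · d)` and the weights
`if (∀ a ∈ S b, T a d) then w b else 0`. Let `M` be larger than all `s₁ c`, `c ∈ Y₁`
(e.g. `M = ∑ c ∈ Y₁, s₁ c + 1`) and put
`s c := s₁ c` if `T c d`, `s d := M`, `s c := M + 1 + s₂ c` if `T d c` (so e.g.
`s c := if T c d then s₁ c else if T d c then M + 1 + s₂ c else M`; it is injective on `Y`).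
For each `b` (with `S = S b ⊆ Y`):
`after s Y S = after s₂ Y₂ (S.filter (T d ·)) + (if ∀ a ∈ S, T a d then p d + after s₁ Y₁ S else 0)`
since `c ∈ Y₂` comes after all of `S` iff it comes after all elements of `S ∩ Y₂`;
`d` comes after all of `S` iff `S ⊆ Y₁` (`S ⊆ Y`); `c ∈ Y₁` comes after all of `S` iff
`S ⊆ Y₁` and it comes after all elements of `S` with respect to `s₁` (only `≥` is needed).
If `∀ a ∈ S b, T a d` then `(S b).filter (T · d) = S b`. Sum up. Finally take `Y = univ`. -/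
def S_qs : Prop := ∀ (N : Type) [Fintype N] (T : N → N → Prop), IsTour T → ∀ (p : N → ℕ),
  (∀ i, 0 < p i) → ∀ (B : Type) [Fintype B] (w : B → ℕ) (S : B → Finset N),
  ∃ s : N → ℕ, Function.Injective s ∧
    ∑ b, w b * after T p univ (S b) ≤ ∑ b, w b * after (fun a c => s a < s c) p univ (S b)

/-- [sr] Sorting by a key.

Proof. Let `e : X ≃ Fin (card X)` and `κ x := toLex (k x, e x) : K ×ₗ Fin _`, which is injective,
and let `s x := #{z | κ z < κ x}`. If `κ x < κ y` then `s x < s y` (the filter is a proper subset,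
`x` is in the second only). So `s` is injective (`κ` is and the order is linear), and
`k x < k y → κ x < κ y` (`Prod.Lex`). -/
def S_sr : Prop := ∀ (X : Type) [Fintype X] (K : Type) [LinearOrder K] (k : X → K),
  ∃ s : X → ℕ, Function.Injective s ∧ ∀ x y, k x < k y → s x < s y

/-- [to] A vertex cover of the conflict graph gives a tournament.

Proof. Put `F i j := i = j ∨ prec i j ∨ ∃ q ∈ X, q.1 = (i, j)`.
(P1) If `le i l` and `le k j` then `F i j ∨ F k l`. Suppose neither. If `(i, j)` is not a `Pair`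
then (as not `F i j`) `prec j i`, so `k ⪯ j ≺ i ⪯ l` and `prec k l`, a contradiction. Similarly
`(k, l)` is a `Pair` (if `prec l k` then `i ⪯ l ≺ k ⪯ j`). If the two pairs are equal then
`i ⪯ l = j`, so `F i j`. Otherwise they are adjacent in the conflict graph and one of them is in
`X`.
Put `Q i k := ∀ j, le k j → F i j`. (P2) `Q i k ∨ Q k i`: otherwise there are `j`, `l`
with `le k j`, `¬ F i j`, `le i l`, `¬ F k l`, against (P1). Let `e : N ≃ Fin (card N)` and
`T i k := i ≠ k ∧ Q i k ∧ (¬ Q k i ∨ e i < e k)`. It is a tournament, and `T i k` implies `Q i k`.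
-/
def S_to : Prop := ∀ (N : Type) [Fintype N] (I : Inst N) (X : Finset I.Pair),
  IsCover I.conflict X → ∃ T : N → N → Prop, IsTour T ∧
    ∀ i k j, T i k → I.le k j → (i = j ∨ I.prec i j ∨ ∃ q ∈ X, q.1 = (i, j))

/-- [bx] The weight of a set of pairs.

Proof. The set `{(i, j) | i = j ∨ prec i j ∨ ∃ q ∈ X, q.1 = (i, j)}` is the disjoint union of the
diagonal, of `{(i, j) | prec i j}` and of the image of `X` in `N × N` (the members of `I.Pair` are
incomparable and distinct; `Subtype.val` is injective). -/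
def S_bx : Prop := ∀ (N : Type) [Fintype N] (I : Inst N) (X : Finset I.Pair),
  ∑ j, I.w j * ∑ i ∈ univ.filter (fun i => i = j ∨ I.prec i j ∨ ∃ q ∈ X, q.1 = (i, j)), I.p i =
    I.base + ∑ q ∈ X, I.wt q

/-- [am] Every vertex cover of the conflict graph gives a schedule of at most this cost.

Proof from `S_qs`, `S_sr`, `S_to`, `S_bx`. Let `T` be from `S_to`,
`D j := univ.filter (fun k => le k j)`, and `σ` from `S_qs` with `B = N`, `p = I.p`, `w = I.w`,
`S = D`: `∑_j w_j p{c | ∀ a ∈ D j, T a c} ≤ ∑_j w_j p{c | ∀ a ∈ D j, σ a < σ c}`. Taking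
complements (`Finset.sum_filter_add_sum_filter_not`),
`∑_j w_j p{c | ∃ a ∈ D j, σ c ≤ σ a} ≤ ∑_j w_j p{c | ∃ a ∈ D j, ¬ T a c}`.
If `a ∈ D j` and `¬ T a c` then `c = a`, and `c ⪯ j`, or `T c a`; in all cases
`c = j ∨ prec c j ∨ ∃ q ∈ X, q.1 = (c, j)`; so the right side is at most
`base + ∑_X wt` by `S_bx`.
Let `κ j := (D j).sup σ`, and `k j := toLex (κ j, #(D j)) : ℕ ×ₗ ℕ`, and `s` from `S_sr`. If
`prec i j` then `D i ⊂ D j` (proper: `j ∉ D i`), so `κ i ≤ κ j`, `#(D i) < #(D j)`, `k i < k j` and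
`s i < s j`. So `s` is a schedule. If `s i ≤ s j` then `¬ k j < k i`, so `κ i ≤ κ j`; as `i ∈ D i`,
`σ i ≤ κ i ≤ κ j`, and `κ j = σ a` for some `a ∈ D j` (`Finset.exists_mem_eq_sup`). So
`C_j ≤ p{c | ∃ a ∈ D j, σ c ≤ σ a}`. -/
def S_am : Prop := ∀ (N : Type) [Fintype N] (I : Inst N) (X : Finset I.Pair),
  IsCover I.conflict X → ∃ s, I.IsSchedule s ∧ I.cost s ≤ I.base + ∑ q ∈ X, I.wt q

/-- [sc] Every schedule gives a vertex cover of the same cost.

Proof from `S_bx`. `X := {q | s q.1.1 < s q.1.2}`. It is a cover: if `(i,j)`, `(k,l)` are adjacent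
and neither is in `X`, then `s j ≤ s i`, `s l ≤ s k`, and by injectivity (`i ≠ j`, `k ≠ l`)
`s j < s i ≤ s l < s k ≤ s j` (since `le i l`, `le k j`), a contradiction. For all `i`, `j`:
`s i ≤ s j ↔ (i = j ∨ prec i j ∨ ∃ q ∈ X, q.1 = (i, j))`: if `s i ≤ s j`, `i ≠ j`, not `prec i j`,
then not `prec j i` and `(i, j)` is a pair with `s i < s j`. So `cost s` is the left side of
`S_bx`. -/
def S_sc : Prop := ∀ (N : Type) [Fintype N] (I : Inst N) (s : N → ℕ), I.IsSchedule s →
  ∃ X : Finset I.Pair, IsCover I.conflict X ∧ I.cost s = I.base + ∑ q ∈ X, I.wt q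

/-! ### Interval completion -/

/-- [il] The linear programme of the instance of a graph.

Proof. Write `d = ∑_{(u,v)} [u ≠ v ∧ ¬ Adj u v]`, `n = #V`. The weight of a pair `(i, j)` is `1`
if `j = inr v`, and `0` if `j = inl v`. The pairs `(i, inr v)` are: `(inr u, inr v)` with `u ≠ v`,
and `(inl u, inr v)` with `u ≠ v`, `¬ L.Adj u v`. The total weight of all pairs is
`n (n - 1) + d`, so `x = 1/2` gives `lp ≤ (n (n-1) + d) / 2`. (≥) Let `x` be feasible. The pairs
`(inr u, inr v)` and `(inr v, inr u)` are adjacent (`le (inr u) (inr u)`, `le (inr v) (inr v)`);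
the pairs `(inl u, inr v)` and `(inl v, inr u)` are adjacent (`prec (inl u) (inr u)`,
`prec (inl v) (inr v)`). So the sum of `x` over the pairs of weight `1` is at least half of their
number (sum the inequality `1 ≤ x q + x q'` over `q`, where `q ↦ q'` is the involution). -/
def S_il : Prop := ∀ (V : Type) [Fintype V] (L : SimpleGraph V),
  2 * lp (intervalInst L).conflict (intervalInst L).wt =
    (Fintype.card V : ℝ) * (Fintype.card V - 1) +
      (univ.filter (fun q : V × V => q.1 ≠ q.2 ∧ ¬ L.Adj q.1 q.2)).card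

/-- The interval supergraph of a schedule of `intervalInst L`. -/
def schedGraph {V : Type} (s : V ⊕ V → ℕ) : SimpleGraph V where
  Adj u v := u ≠ v ∧ s (Sum.inl u) < s (Sum.inr v) ∧ s (Sum.inl v) < s (Sum.inr u)
  symm := ⟨fun _ _ h => ⟨h.1.symm, h.2.2, h.2.1⟩⟩
  loopless := ⟨fun _ h => h.1 rfl⟩

/-- [ic] The cost of a schedule of the instance of a graph.

Proof. `cost s = ∑_v #{i | s i ≤ s (inr v)} = #{(u,v) | s (inr u) ≤ s (inr v)} +
#{(u,v) | s (inl u) < s (inr v)}` (`s` is injective). The first number is `n (n+1) / 2`: twice it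
is `n² + n` (swap `u`, `v`; the diagonal is counted twice). The second is, since
`prec (inl u) (inr v)` when `u = v` or `L.Adj u v`,
`n + #{(u,v) | L.Adj u v} + #{(u,v) | u ≠ v, ¬ L.Adj u v, s (inl u) < s (inr v)}`. For `u ≠ v` at
least one of `s (inl u) < s (inr v)`, `s (inl v) < s (inr u)` holds (otherwise
`s (inr v) ≤ s (inl u) < s (inr u) ≤ s (inl v) < s (inr v)`), so twice the last
number is `#{(u,v) | u ≠ v, ¬ L.Adj u v} + #{(u,v) | ¬ L.Adj u v, (schedGraph s).Adj u v}` (swap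
`u`, `v`), and the last of these is `2 #(edges of schedGraph s not in L)` (each edge corresponds to
two ordered pairs, darts of the graph `schedGraph s \ L`:
`SimpleGraph.sum_degrees_eq_twice_card_edges` or `SimpleGraph.dart_card_eq_twice_card_edges`). And
`base = ∑_{j} w_j + #{(i,j) | prec i j, w j = 1} = n + n + #{(u,v) | L.Adj u v}`. Together
`2 cost = n² + n + 2n + 2#{Adj} + d + 2 f = 2 base + n (n - 1) + d + 2 f`. -/
def S_ic : Prop := ∀ (V : Type) [Fintype V] (L : SimpleGraph V) (s : V ⊕ V → ℕ),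
  (intervalInst L).IsSchedule s →
  2 * (intervalInst L).cost s + Fintype.card V = 2 * (intervalInst L).base +
    Fintype.card V ^ 2 +
      (univ.filter (fun q : V × V => q.1 ≠ q.2 ∧ ¬ L.Adj q.1 q.2)).card +
      2 * ((schedGraph s).edgeSet \ L.edgeSet).ncard

/-- [is] Schedules of the instance of `L` correspond to the interval supergraphs of `L`.

Proof from `S_sr`. (1) `l v := s (inl v)`, `r v := s (inr v)`; `l v < r v` since
`prec (inl v) (inr v)`; `l u ≤ r v ↔ l u < r v` as `s` is injective. `L ≤ schedGraph s`: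
`prec (inl u) (inr v)`, `prec (inl v) (inr u)` when `L.Adj u v`.
(2) Given `l`, `r`, let `K = ℝ ×ₗ ℕ`, `k (inl v) := toLex (l v, 0)`, `k (inr v) := toLex (r v, 1)`,
and `s` from `S_sr`. If `l u ≤ r v` then `k (inl u) < k (inr v)`, so `s (inl u) < s (inr v)`. If
`r v < l u` then `k (inr v) < k (inl u)` and `s (inr v) < s (inl u)`. So
`s (inl u) < s (inr v) ↔ l u ≤ r v`. It is a schedule (`l u ≤ r u`; if `L.Adj u v` then `F.Adj u v`
and `l u ≤ r v`), and `(schedGraph s).Adj u v ↔ u ≠ v ∧ l u ≤ r v ∧ l v ≤ r u ↔ F.Adj u v`. -/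
def S_is : Prop := ∀ (V : Type) [Fintype V] (L : SimpleGraph V),
  (∀ s : V ⊕ V → ℕ, (intervalInst L).IsSchedule s →
    L ≤ schedGraph s ∧ IsIntervalGraph (schedGraph s)) ∧
  ∀ F : SimpleGraph V, L ≤ F → IsIntervalGraph F →
    ∃ s : V ⊕ V → ℕ, (intervalInst L).IsSchedule s ∧ schedGraph s = F

end

end Pool.Agent.MP_49bd53_lc
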